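import Mathlib

/-!
# An infinite-dimensional Noetherian residually nilpotent Lie algebra

Over every field `K` of characteristic zero the positive Witt algebra `W₊`, with basis `e₁, e₂, …`
and bracket `[e_i, e_j] = (j - i) e_{i+j}`, is infinite-dimensional, every subalgebra of it is
finitely generated (so it satisfies the maximal condition on subalgebras), and it is residually
nilpotent.

We realise `W₊` on the space `K[X]`, with `e_{i+1}` corresponding to `X^i`; the bracket is then
`⁅u, v⁆ = X² (u v' - u' v)`.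
-/

set_option autoImplicit false

namespace Pool.Agent.Results.MP_d0ec72_al.PositiveWitt

open Polynomial

universe u

/-- The positive Witt algebra: the space of polynomials, `X^i` standing for `e_{i+1}`. -/
structure WPos (K : Type u) [Field K] where
  /-- the underlying polynomial -/
  poly : K[X]

variable {K : Type u} [Field K]

namespace WPos

@[ext] theorem ext' {a b : WPos K} (h : a.poly = b.poly) : a = b := by
  cases a; cases b; congr

noncomputable instance : Zero (WPos K) := ⟨⟨0⟩⟩
noncomputable instance : Add (WPos K) := ⟨fun a b => ⟨a.poly + b.poly⟩⟩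
noncomputable instance : Neg (WPos K) := ⟨fun a => ⟨-a.poly⟩⟩
noncomputable instance : Sub (WPos K) := ⟨fun a b => ⟨a.poly - b.poly⟩⟩
noncomputable instance instSMulGen {S : Type*} [SMul S K[X]] : SMul S (WPos K) :=
  ⟨fun c a => ⟨c • a.poly⟩⟩

@[simp] theorem poly_zero : (0 : WPos K).poly = 0 := rfl
@[simp] theorem poly_add (a b : WPos K) : (a + b).poly = a.poly + b.poly := rfl
@[simp] theorem poly_neg (a : WPos K) : (-a).poly = -a.poly := rfl
@[simp] theorem poly_sub (a b : WPos K) : (a - b).poly = a.poly - b.poly := rfl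
@[simp] theorem poly_smul {S : Type*} [SMul S K[X]] (c : S) (a : WPos K) :
    (c • a).poly = c • a.poly := rfl

theorem poly_injective : Function.Injective (poly : WPos K → K[X]) := fun _ _ h => ext' h

noncomputable instance : AddCommGroup (WPos K) :=
  poly_injective.addCommGroup poly rfl (fun _ _ => rfl) (fun _ => rfl) (fun _ _ => rfl)
    (fun _ _ => rfl) (fun _ _ => rfl)

/-- The additive map to polynomials. -/
def polyHom : WPos K →+ K[X] where
  toFun := poly
  map_zero' := rfl
  map_add' _ _ := rfl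

noncomputable instance : Module K (WPos K) :=
  poly_injective.module K polyHom (fun _ _ => rfl)

/-- The linear equivalence with the space of polynomials. -/
noncomputable def equiv (K : Type u) [Field K] : WPos K ≃ₗ[K] K[X] where
  toFun := poly
  invFun p := ⟨p⟩
  map_add' _ _ := rfl
  map_smul' _ _ := rfl
  left_inv _ := rfl
  right_inv _ := rfl

noncomputable instance : Bracket (WPos K) (WPos K) :=
  ⟨fun a b => ⟨X ^ 2 * (a.poly * derivative b.poly - derivative a.poly * b.poly)⟩⟩

@[simp] theorem poly_lie (a b : WPos K) :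
    ⁅a, b⁆.poly = X ^ 2 * (a.poly * derivative b.poly - derivative a.poly * b.poly) := rfl

noncomputable instance : LieRing (WPos K) where
  add_lie a b c := by ext1; simp; ring
  lie_add a b c := by ext1; simp; ring
  lie_self a := by ext1; simp; ring
  leibniz_lie a b c := by
    ext1
    simp only [poly_lie, poly_add, derivative_mul, derivative_sub, derivative_X_pow]
    ring

noncomputable instance : LieAlgebra K (WPos K) where
  lie_smul c a b := by ext1; simp [smul_eq_C_mul]; ring

end WPos

open WPos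

/-! ### Degrees -/

theorem coeff_X_mul_derivative (p : K[X]) (n : ℕ) :
    (X * derivative p).coeff n = n * p.coeff n := by
  cases n with
  | zero => simp
  | succ n => rw [coeff_X_mul, coeff_derivative]; push_cast; ring

theorem natDegree_X_mul_derivative_le (p : K[X]) : (X * derivative p).natDegree ≤ p.natDegree := by
  rw [natDegree_le_iff_coeff_eq_zero]
  intro n hn
  rw [coeff_X_mul_derivative, coeff_eq_zero_of_natDegree_lt hn, mul_zero]

theorem poly_ne_zero {a : WPos K} (h : a ≠ 0) : a.poly ≠ 0 := fun h' => h (ext' h')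

theorem lie_degree [CharZero K] {a b : WPos K} (ha : a ≠ 0) (hb : b ≠ 0)
    (hab : a.poly.natDegree ≠ b.poly.natDegree) :
    ⁅a, b⁆ ≠ 0 ∧ ⁅a, b⁆.poly.natDegree = a.poly.natDegree + b.poly.natDegree + 1 := by
  set i := a.poly.natDegree with hi
  set j := b.poly.natDegree with hj
  have e : ⁅a, b⁆.poly
      = (a.poly * (X * derivative b.poly) - (X * derivative a.poly) * b.poly) * X := by
    rw [poly_lie]; ring
  have d1 : (X * derivative b.poly).natDegree ≤ j := natDegree_X_mul_derivative_le _
  have d2 : (X * derivative a.poly).natDegree ≤ i := natDegree_X_mul_derivative_le _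
  have c : ⁅a, b⁆.poly.coeff (i + j + 1) = ((j : K) - i) * (a.poly.coeff i * b.poly.coeff j) := by
    rw [e, coeff_mul_X, coeff_sub, coeff_mul_add_eq_of_natDegree_le hi.symm.le d1,
      coeff_mul_add_eq_of_natDegree_le d2 hj.symm.le, coeff_X_mul_derivative,
      coeff_X_mul_derivative]
    ring
  have hne : ⁅a, b⁆.poly.coeff (i + j + 1) ≠ 0 := by
    rw [c]
    refine mul_ne_zero ?_ (mul_ne_zero ?_ ?_)
    · rw [sub_ne_zero]
      exact fun h => hab (by exact_mod_cast h.symm)
    · exact leadingCoeff_ne_zero.2 (poly_ne_zero ha)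
    · exact leadingCoeff_ne_zero.2 (poly_ne_zero hb)
  have hle : ⁅a, b⁆.poly.natDegree ≤ i + j + 1 := by
    rw [e]
    refine natDegree_mul_le.trans (Nat.add_le_add ?_ natDegree_X_le)
    refine (natDegree_sub_le _ _).trans (max_le ?_ ?_)
    · exact natDegree_mul_le.trans (Nat.add_le_add hi.symm.le d1)
    · exact natDegree_mul_le.trans (Nat.add_le_add d2 hj.symm.le)
  refine ⟨fun h => hne (by rw [h]; simp), le_antisymm hle (le_natDegree_of_ne_zero hne)⟩

/-! ### Every subalgebra is finitely generated -/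

/-- `HasDeg M n`: the subalgebra `M` has a nonzero element of degree `n`. -/
def HasDeg (M : LieSubalgebra K (WPos K)) (n : ℕ) : Prop :=
  ∃ m ∈ M, m ≠ 0 ∧ m.poly.natDegree = n

theorem le_of_hasDeg {M N : LieSubalgebra K (WPos K)} (hNM : N ≤ M)
    (h : ∀ n, HasDeg M n → HasDeg N n) : M ≤ N := by
  have key : ∀ n : ℕ, ∀ m ∈ M, m.poly.natDegree ≤ n → m ∈ N := by
    intro n
    induction n using Nat.strong_induction_on with
    | _ n ih =>
      intro m hm hmn
      by_cases h0 : m = 0
      · rw [h0]; exact N.zero_mem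
      obtain ⟨t, htN, ht0, htd⟩ := h m.poly.natDegree ⟨m, hm, h0, rfl⟩
      set c : K := m.poly.leadingCoeff / t.poly.leadingCoeff with hc
      have ht1 : t.poly.leadingCoeff ≠ 0 := leadingCoeff_ne_zero.2 (poly_ne_zero ht0)
      have hrec : m - c • t ∈ N := by
        by_cases h1 : m - c • t = 0
        · rw [h1]; exact N.zero_mem
        by_cases hd : m.poly.natDegree = 0
        · exfalso
          apply h1
          apply ext'
          rw [poly_sub, poly_smul, poly_zero]
          have e1 : m.poly = C m.poly.leadingCoeff := by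
            rw [leadingCoeff, hd]; exact eq_C_of_natDegree_eq_zero hd
          have e2 : t.poly = C t.poly.leadingCoeff := by
            rw [leadingCoeff, htd, hd]; exact eq_C_of_natDegree_eq_zero (htd.trans hd)
          rw [e1, e2, smul_C, ← C_sub, hc]
          simp only [smul_eq_mul]
          rw [div_mul_cancel₀ _ ht1, sub_self, C_0]
        · have hlt : (m - c • t).poly.natDegree < m.poly.natDegree := by
            have hle : (m - c • t).poly.natDegree ≤ m.poly.natDegree := by
              rw [poly_sub, poly_smul]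
              refine (natDegree_sub_le _ _).trans (max_le le_rfl ?_)
              exact (natDegree_smul_le _ _).trans htd.le
            refine lt_of_le_of_ne hle fun heq => ?_
            have h2 : (m - c • t).poly.coeff (m.poly.natDegree) ≠ 0 := by
              rw [← heq]; exact leadingCoeff_ne_zero.2 (poly_ne_zero h1)
            apply h2
            rw [poly_sub, poly_smul, coeff_sub, coeff_smul, smul_eq_mul, hc]
            have : t.poly.coeff m.poly.natDegree = t.poly.leadingCoeff := by
              rw [leadingCoeff, htd]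
            rw [this, div_mul_cancel₀ _ ht1]
            exact sub_self _
          exact ih _ (lt_of_lt_of_le hlt hmn) _ (M.sub_mem hm (M.smul_mem c (hNM htN))) le_rfl
      have := N.add_mem hrec (N.smul_mem c htN)
      rwa [sub_add_cancel] at this
  exact fun m hm => key _ m hm le_rfl

theorem fg [CharZero K] (M : LieSubalgebra K (WPos K)) :
    ∃ s : Set (WPos K), s.Finite ∧ LieSubalgebra.lieSpan K (WPos K) s = M := by
  classical
  by_cases hM : ∃ n, HasDeg M n
  swap
  · refine ⟨∅, Set.finite_empty, ?_⟩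
    refine le_antisymm (LieSubalgebra.lieSpan_le.2 (Set.empty_subset _)) ?_
    intro m hm
    have : m = 0 := by
      by_contra h0
      exact hM ⟨_, m, hm, h0, rfl⟩
    rw [this]; exact LieSubalgebra.zero_mem _
  set a := Nat.find hM with ha
  obtain ⟨ma, hma, hma0, hmad⟩ := Nat.find_spec hM
  have hmin : ∀ n, HasDeg M n → a ≤ n := fun n hn => Nat.find_min' hM hn
  -- the residue classes
  let Q : ℕ → ℕ → Prop := fun r n => HasDeg M n ∧ n ≠ a ∧ n % (a + 1) = r
  have hchoose : ∀ r : ℕ, ∃ t : WPos K, t ∈ M ∧ ∀ n, Q r n →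
      ∃ n0, n0 ≤ n ∧ Q r n0 ∧ t ≠ 0 ∧ t.poly.natDegree = n0 := by
    intro r
    by_cases hr : ∃ n, Q r n
    · obtain ⟨t, htM, ht0, htd⟩ := (Nat.find_spec hr).1
      exact ⟨t, htM, fun n hn => ⟨Nat.find hr, Nat.find_min' hr hn, Nat.find_spec hr, ht0, htd⟩⟩
    · exact ⟨0, M.zero_mem, fun n hn => absurd ⟨n, hn⟩ hr⟩
  choose t htM ht using hchoose
  let s : Set (WPos K) := insert ma (t '' (Set.Iio (a + 1)))
  have hs : s.Finite := ((Set.finite_Iio (a + 1)).image t).insert ma
  have hsM : s ⊆ M := by
    rintro x (rfl | ⟨r, -, rfl⟩)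
    · exact hma
    · exact htM r
  refine ⟨s, hs, le_antisymm (LieSubalgebra.lieSpan_le.2 hsM) ?_⟩
  refine le_of_hasDeg (LieSubalgebra.lieSpan_le.2 hsM) fun n hn => ?_
  have hmaN : ma ∈ LieSubalgebra.lieSpan K (WPos K) s :=
    LieSubalgebra.subset_lieSpan (Set.mem_insert _ _)
  by_cases hna : n = a
  · exact ⟨ma, hmaN, hma0, by rw [hna]; exact hmad⟩
  obtain ⟨n0, hn0n, ⟨hn0, hn0a, hn0r⟩, ht0, htd⟩ := ht (n % (a + 1)) n ⟨hn, hna, rfl⟩
  have hlt : a < n0 := lt_of_le_of_ne (hmin _ hn0) (Ne.symm hn0a)
  have hstep : ∀ k : ℕ, HasDeg (LieSubalgebra.lieSpan K (WPos K) s) (n0 + k * (a + 1)) := by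
    intro k
    induction k with
    | zero =>
      refine ⟨t (n % (a + 1)), LieSubalgebra.subset_lieSpan (Set.mem_insert_of_mem _
        ⟨_, Set.mem_Iio.2 (Nat.mod_lt _ (Nat.succ_pos a)), rfl⟩), ht0, ?_⟩
      rw [htd]; ring
    | succ k ih =>
      obtain ⟨w, hwN, hw0, hwd⟩ := ih
      have hd : w.poly.natDegree ≠ ma.poly.natDegree := by
        rw [hwd, hmad]
        have : n0 ≤ n0 + k * (a + 1) := Nat.le_add_right _ _
        omega
      obtain ⟨h1, h2⟩ := lie_degree hw0 hma0 hd
      refine ⟨⁅w, ma⁆, LieSubalgebra.lie_mem _ hwN hmaN, h1, ?_⟩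
      rw [h2, hwd, hmad]
      ring
  obtain ⟨k, hk⟩ : ∃ k, n = n0 + k * (a + 1) := by
    have h3 : n0 ≡ n [MOD (a + 1)] := hn0r
    obtain ⟨k, hk⟩ := (Nat.modEq_iff_dvd' hn0n).1 h3
    exact ⟨k, by rw [mul_comm k, ← hk]; omega⟩
  rw [hk]
  exact hstep k

/-- The maximal condition on subalgebras. -/
theorem chain [CharZero K] (M : ℕ →o LieSubalgebra K (WPos K)) :
    ∃ n, ∀ m, n ≤ m → M m = M n := by
  let U : LieSubalgebra K (WPos K) :=
    { carrier := {x | ∃ n, x ∈ M n}
      add_mem' := by
        rintro x y ⟨n, hn⟩ ⟨m, hm⟩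
        exact ⟨max n m, (M (max n m)).add_mem (M.monotone (le_max_left _ _) hn)
          (M.monotone (le_max_right _ _) hm)⟩
      zero_mem' := ⟨0, (M 0).zero_mem⟩
      smul_mem' := by
        rintro c x ⟨n, hn⟩
        exact ⟨n, (M n).smul_mem c hn⟩
      lie_mem' := by
        rintro x y ⟨n, hn⟩ ⟨m, hm⟩
        exact ⟨max n m, (M (max n m)).lie_mem (M.monotone (le_max_left _ _) hn)
          (M.monotone (le_max_right _ _) hm)⟩ }
  obtain ⟨s, hs, hsU⟩ := fg U
  have hsub : ∀ x ∈ s, ∃ n, x ∈ M n := by
    intro x hx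
    have : x ∈ U := by rw [← hsU]; exact LieSubalgebra.subset_lieSpan hx
    exact this
  have hN : ∃ N, ∀ x ∈ s, x ∈ M N := by
    clear hsU
    induction s, hs using Set.Finite.induction_on with
    | empty => exact ⟨0, fun x hx => absurd hx (Set.notMem_empty x)⟩
    | insert _ _ ih =>
      obtain ⟨N, hN⟩ := ih (fun x hx => hsub x (Set.mem_insert_of_mem _ hx))
      obtain ⟨n, hn⟩ := hsub _ (Set.mem_insert _ _)
      refine ⟨max n N, ?_⟩
      rintro x (rfl | hx)
      · exact M.monotone (le_max_left _ _) hn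
      · exact M.monotone (le_max_right _ _) (hN x hx)
  obtain ⟨N, hN⟩ := hN
  refine ⟨N, fun m hm => le_antisymm ?_ (M.monotone hm)⟩
  have h1 : U ≤ M N := by
    rw [← hsU]
    exact LieSubalgebra.lieSpan_le.2 hN
  exact fun x hx => h1 ⟨m, hx⟩

/-! ### Residual nilpotence -/

theorem dvd_lie {n : ℕ} {x m : WPos K} (hm : X ^ n ∣ m.poly) : X ^ (n + 1) ∣ ⁅x, m⁆.poly := by
  obtain ⟨q, hq⟩ := hm
  rw [poly_lie, hq, derivative_mul, derivative_X_pow]
  cases n with
  | zero =>
    refine ⟨X * (x.poly * derivative q - derivative x.poly * q), ?_⟩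
    simp
    ring
  | succ n =>
    refine ⟨x.poly * (C ((n + 1 : ℕ) : K) * q + X * derivative q) - derivative x.poly * (X * q), ?_⟩
    simp only [Nat.add_sub_cancel]
    ring

/-- The ideal spanned by the `e_i` with `i > n`. -/
noncomputable def idealGE (K : Type u) [Field K] (n : ℕ) : LieIdeal K (WPos K) where
  carrier := {m | X ^ n ∣ m.poly}
  add_mem' := fun ha hb => dvd_add ha hb
  zero_mem' := dvd_zero _
  smul_mem' := fun c x hx => by
    show X ^ n ∣ (c • x).poly
    rw [poly_smul, smul_eq_C_mul]
    exact dvd_mul_of_dvd_right hx _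
  lie_mem := fun {x m} hm => (pow_dvd_pow X (Nat.le_succ n)).trans (dvd_lie hm)

theorem mem_idealGE {n : ℕ} {m : WPos K} : m ∈ idealGE K n ↔ X ^ n ∣ m.poly := Iff.rfl

theorem lcs_le (n : ℕ) :
    LieModule.lowerCentralSeries K (WPos K) (WPos K) n ≤ idealGE K n := by
  induction n with
  | zero =>
    intro m _
    rw [mem_idealGE, pow_zero]
    exact one_dvd _
  | succ n ih =>
    rw [LieModule.lowerCentralSeries_succ, LieSubmodule.lieIdeal_oper_eq_span,
      LieSubmodule.lieSpan_le]
    rintro _ ⟨⟨x, -⟩, ⟨m, hm⟩, rfl⟩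
    exact dvd_lie (ih hm)

theorem nilpotent_quotient (n : ℕ) : LieRing.IsNilpotent (WPos K ⧸ idealGE K n) := by
  have h1 : LieModule.lowerCentralSeries K (WPos K) (WPos K ⧸ idealGE K n) n = ⊥ := by
    rw [← LieModule.map_lowerCentralSeries_eq n
      (LieSubmodule.Quotient.surjective_mk' (idealGE K n)),
      LieSubmodule.Quotient.map_mk'_eq_bot_le]
    exact lcs_le n
  have h2 : LieModule.lowerCentralSeries K (WPos K ⧸ idealGE K n) (WPos K ⧸ idealGE K n) n = ⊥ := by
    rw [← LieSubmodule.toSubmodule_inj, ← coe_lowerCentralSeries_ideal_quot_eq, h1]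
    rfl
  exact (LieModule.isNilpotent_iff K (WPos K ⧸ idealGE K n) (WPos K ⧸ idealGE K n)).2 ⟨n, h2⟩

/-- **Over every field of characteristic zero there is an infinite-dimensional Lie algebra which
satisfies the maximal condition on subalgebras and is residually nilpotent.** -/
theorem result (K : Type u) [Field K] [CharZero K] :
    ∃ (L : Type u) (_ : LieRing L) (_ : LieAlgebra K L),
      ¬ FiniteDimensional K L ∧
      (∀ M : ℕ →o LieSubalgebra K L, ∃ n, ∀ m, n ≤ m → M m = M n) ∧
      (∀ x : L, x ≠ 0 → ∃ I : LieIdeal K L, x ∉ I ∧ LieRing.IsNilpotent (L ⧸ I)) := by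
  refine ⟨WPos K, inferInstance, inferInstance, ?_, chain, ?_⟩
  · intro h
    have h' : FiniteDimensional K K[X] := Module.Finite.equiv (WPos.equiv K)
    exact Polynomial.not_finite h'
  · intro x hx
    refine ⟨idealGE K (x.poly.natDegree + 1), ?_, nilpotent_quotient _⟩
    intro hmem
    rw [mem_idealGE] at hmem
    have := natDegree_le_of_dvd hmem (poly_ne_zero hx)
    rw [natDegree_X_pow] at this
    omega

end Pool.Agent.Results.MP_d0ec72_al.PositiveWitt
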